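import Mathlib

/-!
# Gordan's lemma, in the forms used by TANK G, block END (rows E2a, E2b)

For a finitely generated submonoid `T` of `ℤ^r`: its saturation
`{m : N m ∈ T for some N > 0}` is finitely generated, and the set
`{m : e m - c ∈ T}` is a finite union of translates of (subsets of) `T`.
Both by the box argument: divide the coefficients by `N` (by `e`), the remainder
lies in a bounded box.
-/

set_option autoImplicit false

namespace Pool.Agent.TG

/-- the box of a generating set -/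
private theorem gordan_fg {r : ℕ} (T : AddSubmonoid (Fin r → ℤ)) (hT : T.FG) :
    ∃ b : Fin r → ℤ, (∀ i, 0 ≤ b i) ∧ ∀ (N : ℕ), 0 < N → ∀ t ∈ T, ∃ q ∈ T, ∃ s ∈ T,
      t = N • q + s ∧ ∀ i, |s i| ≤ N * b i := by
  classical
  obtain ⟨S, rfl⟩ := hT
  refine ⟨fun i => ∑ a ∈ S, |a i|, fun i => Finset.sum_nonneg fun a _ => abs_nonneg _, ?_⟩
  intro N hN t ht
  obtain ⟨f, -, rfl⟩ := AddSubmonoid.mem_closure_finset.mp ht
  have hmem : ∀ g : (Fin r → ℤ) → ℕ, (∑ a ∈ S, g a • a) ∈ AddSubmonoid.closure (S : Set (Fin r → ℤ)) :=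
    fun g => AddSubmonoid.sum_mem _ fun a ha =>
      AddSubmonoid.nsmul_mem _ (AddSubmonoid.subset_closure ha) _
  refine ⟨∑ a ∈ S, (f a / N) • a, hmem fun a => f a / N, ∑ a ∈ S, (f a % N) • a,
    hmem fun a => f a % N, ?_, ?_⟩
  · rw [Finset.smul_sum, ← Finset.sum_add_distrib]
    refine Finset.sum_congr rfl fun a _ => ?_
    rw [smul_smul, ← add_smul, Nat.div_add_mod]
  · intro i
    rw [Finset.sum_apply, Finset.mul_sum]
    refine (Finset.abs_sum_le_sum_abs _ _).trans (Finset.sum_le_sum fun a _ => ?_)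
    have h1 : ((f a % N) • a) i = ((f a % N : ℕ) : ℤ) * a i := by
      rw [Pi.smul_apply, nsmul_eq_mul]
    rw [h1, abs_mul]
    refine mul_le_mul_of_nonneg_right ?_ (abs_nonneg _)
    rw [abs_of_nonneg (by positivity)]
    exact_mod_cast (Nat.mod_lt _ hN).le

/-- **Row E2a.** The saturation of a finitely generated submonoid of `ℤ^r` is finitely
generated. -/
theorem rowE2a {r : ℕ} (T : AddSubmonoid (Fin r → ℤ)) (hT : T.FG) :
    ∃ T' : AddSubmonoid (Fin r → ℤ), T'.FG ∧ ∀ m, m ∈ T' ↔ ∃ N : ℕ, 0 < N ∧ N • m ∈ T := by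
  classical
  obtain ⟨b, hb, H⟩ := gordan_fg T hT
  obtain ⟨S, hS⟩ := hT
  -- the box
  have hfin : {m : Fin r → ℤ | m ∈ Set.Icc (-b) b ∧ ∃ N : ℕ, 0 < N ∧ N • m ∈ T}.Finite :=
    (Set.finite_Icc (-b) b).subset fun m hm => by
      rw [Set.mem_ofPred_eq] at hm
      exact hm.1
  let B : Finset (Fin r → ℤ) := hfin.toFinset
  have hB : ∀ m, m ∈ B ↔ m ∈ Set.Icc (-b) b ∧ ∃ N : ℕ, 0 < N ∧ N • m ∈ T := by
    intro m
    rw [Set.Finite.mem_toFinset, Set.mem_ofPred_eq]
  refine ⟨AddSubmonoid.closure ((S ∪ B : Finset (Fin r → ℤ)) : Set (Fin r → ℤ)),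
    ⟨S ∪ B, rfl⟩, fun m => ⟨fun hm => ?_, ?_⟩⟩
  · induction hm using AddSubmonoid.closure_induction with
    | mem a ha =>
      rw [Finset.mem_coe, Finset.mem_union] at ha
      rcases ha with ha | ha
      · refine ⟨1, one_pos, ?_⟩
        rw [one_smul, ← hS]
        exact AddSubmonoid.subset_closure ha
      · exact ((hB a).mp ha).2
    | zero => exact ⟨1, one_pos, by rw [smul_zero]; exact T.zero_mem⟩
    | add x y _ _ hx hy =>
      obtain ⟨N, hN, hx⟩ := hx
      obtain ⟨N', hN', hy⟩ := hy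
      refine ⟨N * N', Nat.mul_pos hN hN', ?_⟩
      have h1 : (N * N') • (x + y) = N' • (N • x) + N • (N' • y) := by
        rw [smul_add, smul_smul, smul_smul, mul_comm N' N]
      rw [h1]
      exact T.add_mem (T.nsmul_mem hx _) (T.nsmul_mem hy _)
  · rintro ⟨N, hN, hm⟩
    obtain ⟨q, hq, s, hs, hqs, hsb⟩ := H N hN _ hm
    have hTc : ∀ x ∈ T, x ∈ AddSubmonoid.closure ((S ∪ B : Finset (Fin r → ℤ)) : Set (Fin r → ℤ)) := by
      intro x hx
      rw [← hS] at hx
      exact AddSubmonoid.closure_mono (by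
        intro a ha
        rw [Finset.mem_coe, Finset.mem_union]
        exact Or.inl ha) hx
    have hN' : (0 : ℤ) < N := by exact_mod_cast hN
    have h2 : N • (m - q) = s := by
      rw [smul_sub, hqs, add_sub_cancel_left]
    have h3 : m - q ∈ B := by
      rw [hB]
      refine ⟨?_, N, hN, by rw [h2]; exact hs⟩
      have h4 : ∀ i, |(m - q) i| ≤ b i := by
        intro i
        have h5 := hsb i
        rw [← h2, Pi.smul_apply, nsmul_eq_mul, abs_mul, abs_of_pos hN'] at h5
        exact le_of_mul_le_mul_left h5 hN'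
      exact ⟨fun i => (abs_le.mp (h4 i)).1, fun i => (abs_le.mp (h4 i)).2⟩
    have h6 : m = q + (m - q) := by abel
    rw [h6]
    exact AddSubmonoid.add_mem _ (hTc q hq) (AddSubmonoid.subset_closure (by
      rw [Finset.mem_coe, Finset.mem_union]
      exact Or.inr h3))

/-- **Row E2b.** For a finitely generated (saturated) submonoid `T` of `ℤ^r`, the set of `m`
with `e m - c ∈ T` is covered by finitely many of its translates `m' + T`.
(Saturation is not needed.) -/
theorem rowE2b {r : ℕ} (T : AddSubmonoid (Fin r → ℤ)) (hT : T.FG)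
    (hsat : ∀ (N : ℕ) (m : Fin r → ℤ), 0 < N → N • m ∈ T → m ∈ T) (e : ℕ) (he : 0 < e)
    (c : Fin r → ℤ) : ∃ M : Finset (Fin r → ℤ), (∀ m ∈ M, e • m - c ∈ T) ∧
      ∀ m, e • m - c ∈ T → ∃ m' ∈ M, m - m' ∈ T := by
  classical
  have _ := hsat
  obtain ⟨b, hb, H⟩ := gordan_fg T hT
  let B : Fin r → ℤ := fun i => b i + |c i|
  have hfin : {m : Fin r → ℤ | m ∈ Set.Icc (-B) B ∧ e • m - c ∈ T}.Finite :=
    (Set.finite_Icc (-B) B).subset fun m hm => by
      rw [Set.mem_ofPred_eq] at hm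
      exact hm.1
  have hM : ∀ m, m ∈ hfin.toFinset ↔ m ∈ Set.Icc (-B) B ∧ e • m - c ∈ T := by
    intro m
    rw [Set.Finite.mem_toFinset, Set.mem_ofPred_eq]
  refine ⟨hfin.toFinset, fun m hm => ((hM m).mp hm).2, fun m hm => ?_⟩
  obtain ⟨q, hq, s, hs, hqs, hsb⟩ := H e he _ hm
  have he' : (0 : ℤ) < e := by exact_mod_cast he
  have h2 : e • (m - q) - c = s := by
    have : e • m - c = e • q + s := hqs
    rw [smul_sub]
    have h7 : e • m - e • q - c = (e • m - c) - e • q := by abel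
    rw [h7, this, add_sub_cancel_left]
  refine ⟨m - q, ?_, by rw [sub_sub_cancel]; exact hq⟩
  rw [hM]
  refine ⟨?_, by rw [h2]; exact hs⟩
  have h4 : ∀ i, |(m - q) i| ≤ B i := by
    intro i
    have h5 := hsb i
    have h8 : (e : ℤ) * (m - q) i = s i + c i := by
      have h12 : (e • (m - q)) i = (e : ℤ) * (m - q) i := by
        rw [Pi.smul_apply, nsmul_eq_mul]
      rw [← h2, Pi.sub_apply (e • (m - q)) c i, h12]
      ring
    have h9 : (e : ℤ) * |(m - q) i| ≤ e * b i + |c i| := by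
      have : |(e : ℤ) * (m - q) i| = e * |(m - q) i| := by
        rw [abs_mul, abs_of_pos he']
      rw [← this, h8]
      exact (abs_add_le _ _).trans (by linarith)
    have h10 : (e : ℤ) * |(m - q) i| ≤ e * (b i + |c i|) := by
      have h11 : |c i| ≤ e * |c i| := by
        have : (1 : ℤ) ≤ e := he'
        nlinarith [abs_nonneg (c i)]
      rw [mul_add]
      linarith
    exact le_of_mul_le_mul_left h10 he'
  exact ⟨fun i => (abs_le.mp (h4 i)).1, fun i => (abs_le.mp (h4 i)).2⟩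

end Pool.Agent.TG
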